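import Pool.Agent.helper66.WD.Spec

/-!
# Project WD (MP_dc9173_lc), row LHI
-/

universe u

namespace Pool.Agent.WD

open MvPolynomial Pool.Agent.helper92.VC

lemma LHI_prod (hLRX : LRX_stmt.{u}) (n : ℕ) (K : Type u) [Field K] (l : List (Fin n)) (W D : ℕ)
    {ι : Type} [DecidableEq ι] (s : Finset ι) (f : ι → PowerSeries (MvPolynomial (Fin n) K))
    (hf : ∀ i ∈ s, LR W l D (f i)) : LR (W ^ s.card) l D (∏ i ∈ s, f i) := by
  obtain ⟨-, hMul, -, -, -, -, hOne, -⟩ := hLRX n K l
  induction s using Finset.induction_on with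
  | empty => simpa using hOne D
  | insert a s ha ih =>
    rw [Finset.prod_insert ha, Finset.card_insert_of_notMem ha, pow_succ, mul_comm (W ^ s.card) W]
    exact hMul _ _ D _ _ (hf a (Finset.mem_insert_self a s))
      (ih fun i hi => hf i (Finset.mem_insert_of_mem hi))

lemma LHI_cast (n : ℕ) (K : Type u) [Field K] (m : ℕ) :
    ((m : ℕ) : PowerSeries (MvPolynomial (Fin n) K)) = PowerSeries.C (C (m : K)) := by
  simp

theorem LHI (hLNA : LNA_stmt.{u}) (hSML : SML_stmt.{u}) (hLRX : LRX_stmt.{u}) : LHI_stmt.{u} := by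
  intro n K _ c w D τ A P α y a p hA hP hy
  set l : List (Fin n) := List.ofFn τ with hl'
  set W : ℕ := (w + 1) * (D + 2) with hW
  set S : ℕ := (D + 2) ^ (2 * ((c + 1) * (c + 1) + 1)) with hS
  have hS1 : 1 ≤ S := Nat.one_le_pow _ _ (by omega)
  have hW1 : 1 ≤ W := Nat.mul_pos (by omega) (by omega)
  have hWc1 : 1 ≤ W ^ c := Nat.one_le_pow _ _ hW1
  obtain ⟨hMono, hMul, hSum, hAdd, hdz, hC, hOne, -⟩ := hLRX n K l
  have hA1 : ∀ j, LR W l (D + 1) (line α (A j)) := fun j => hLNA n K (w + 1) (D + 1) τ (A j) α (hA j)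
  have hA0 : ∀ j, LR W l D (line α (A j)) := fun j => hMono W W D (D + 1) _ le_rfl (by omega) (hA1 j)
  have hAd : ∀ j, LR W l D (dz (line α (A j))) := fun j => hdz W D _ (hA1 j)
  have hPd : ∀ j, LR S l D (dz (line α (P j)) * y j) := fun j => hSML n K c D τ (P j) α (y j) (hP j) (hy j)
  have hprod : LR (W ^ c) l D (∏ j, line α (A j)) := by
    have h := LHI_prod hLRX n K l W D Finset.univ (fun j => line α (A j)) (fun j _ => hA0 j)
    rwa [Finset.card_univ, Fintype.card_fin] at h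
  have hb : hbound c w D = 2 * ((c + 1) * W ^ c * ((w + 1) * S)) := rfl
  refine ⟨hMono (W ^ c) (hbound c w D) D D _ ?_ le_rfl hprod, ?_⟩
  · rw [hb]
    have h1 : 1 ≤ (w + 1) * S := Nat.mul_pos (by omega) hS1
    have h2 : 1 * W ^ c ≤ (c + 1) * W ^ c := Nat.mul_le_mul_right _ (by omega)
    have h3 : (c + 1) * W ^ c * 1 ≤ (c + 1) * W ^ c * ((w + 1) * S) := Nat.mul_le_mul_left _ h1
    omega
  · have hterm : ∀ j, LR (W ^ c) l D ((a j : PowerSeries (MvPolynomial (Fin n) K)) * dz (line α (A j)) *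
        ∏ i ∈ Finset.univ.erase j, line α (A i)) := by
      intro j
      have h1 := LHI_prod hLRX n K l W D (Finset.univ.erase j) (fun j => line α (A j)) (fun j _ => hA0 j)
      rw [Finset.card_erase_of_mem (Finset.mem_univ j), Finset.card_univ, Fintype.card_fin] at h1
      have h2 : LR W l D ((a j : PowerSeries (MvPolynomial (Fin n) K)) * dz (line α (A j))) := by
        rw [LHI_cast]
        exact hC W D _ _ (hAd j)
      have h3 := hMul W (W ^ (c - 1)) D _ _ h2 h1
      have hc : 0 < c := j.pos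
      have h4 : W * W ^ (c - 1) = W ^ c := by
        rw [← pow_succ', Nat.sub_add_cancel hc]
      rwa [h4] at h3
    have hterm2 : ∀ j, LR S l D ((p j : PowerSeries (MvPolynomial (Fin n) K)) * dz (line α (P j)) * y j) := by
      intro j
      rw [LHI_cast, mul_assoc]
      exact hC S D _ _ (hPd j)
    have hs1 := hSum (W ^ c) c D _ hterm
    have hs2 := hSum S w D _ hterm2
    have hs3 := hMul _ _ D _ _ hprod hs2
    have hs4 := (hAdd _ _ D _ _ hs1 hs3).1
    refine hMono _ (hbound c w D) D D _ ?_ le_rfl hs4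
    rw [hb]
    have h1 : c * W ^ c * 1 ≤ (c + 1) * W ^ c * ((w + 1) * S) :=
      Nat.mul_le_mul (Nat.mul_le_mul_right _ (by omega)) (Nat.mul_pos (by omega) hS1)
    have h2 : 1 * W ^ c * (w * S) ≤ (c + 1) * W ^ c * ((w + 1) * S) :=
      Nat.mul_le_mul (Nat.mul_le_mul_right _ (by omega)) (Nat.mul_le_mul_right _ (by omega))
    rw [one_mul] at h2
    rw [mul_one] at h1
    calc c * W ^ c + W ^ c * (w * S) ≤ (c + 1) * W ^ c * ((w + 1) * S) + (c + 1) * W ^ c * ((w + 1) * S) :=
          Nat.add_le_add h1 h2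
      _ = 2 * ((c + 1) * W ^ c * ((w + 1) * S)) := (two_mul _).symm

end Pool.Agent.WD
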