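import Pool.Agent.helper66.WD.Spec

/-!
# Project WD (MP_dc9173_lc), row SML
-/

universe u

namespace Pool.Agent.WD

open MvPolynomial Pool.Agent.helper92.VC

theorem SML (hSM1 : SM1_stmt.{u}) (hSM2 : SM2_stmt.{u}) (hSPP : SPP_stmt.{u}) (hPRP : PRP_stmt.{u}) (hMNP : MNP_stmt.{u}) (hLRX : LRX_stmt.{u}) : SML_stmt.{u} := by
  intro n K _ c D τ P α y hP hy
  obtain ⟨g, Q, hg, rfl⟩ := hP
  set W : ℕ := (D + 1 + 1) ^ ((c + 1) * (c + 1)) * (D + 1 + 1) with hW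
  obtain ⟨-, hMul, -, -, hdz, -, -, -⟩ := hLRX n K (List.ofFn τ)
  have h1 : LR W (List.ofFn τ) (D + 1) (line α (aeval g Q)) :=
    hMNP n K W W (List.ofFn τ) _ _ le_rfl (hSM2 n K c (D + 1) g α Q).1
      (hSPP n K W (List.ofFn τ) _ (hSM1 n K c (D + 1) τ g α hg))
  have h2 : LR W (List.ofFn τ) D (dz (line α (aeval g Q))) := hdz W D _ h1
  have h3 : LR W (List.ofFn τ) D y := by
    refine hMNP n K ((D + 1) ^ ((c + 1) * (c + 1)) * (D + 1)) W (List.ofFn τ) _ _ ?_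
      ((hSM2 n K c D g α Q).2 y hy)
      (hSPP n K _ (List.ofFn τ) _ (hSM1 n K c D τ g α hg))
    rw [hW]
    exact Nat.mul_le_mul (Nat.pow_le_pow_left (by omega) _) (by omega)
  have h4 := hMul W W D _ _ h2 h3
  have h5 : W * W = (D + 2) ^ (2 * ((c + 1) * (c + 1) + 1)) := by
    rw [hW, two_mul, pow_add, pow_add, pow_one]
  rwa [h5] at h4

end Pool.Agent.WD
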